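import Pool.Agent.H72.EM.All

/-!
# Exact matching: Q1 and nearly uniquely 3-edge-colourable graphs

`HasExact G R k`: the graph `G` has a perfect matching with exactly `k` edges in `R`.
`ExactMatchingInP C`: some deterministic polynomial time algorithm decides this for all `(G, R, k)`
with `G` in the class `C` (the code of an instance is its adjacency matrix with entries `0, 1, 2`).
`Nearly e`: 3-regular graphs with a proper 3-edge-colouring in which any two colour classes form a
connected graph (a Hamiltonian cycle), and with at most `6 * 2^t` proper 3-edge-colourings for some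
`t` with `t^e ≤ n`, where `n` is the number of vertices.
`Unique`: the (non-empty) uniquely 3-edge-colourable 3-regular graphs, the class of Q2.

All definitions are in the file `Pool/Agent/H72/EM/Stmt.lean`.
-/

set_option autoImplicit false

namespace Pool.Agent.Results.MP_dc1a2c_lc.NearlyUniqueColourings

open Pool.Agent.H72.EM

/-- For every `e ≥ 1` the following are equivalent: exact matching is solvable in deterministic
polynomial time for all graphs; for all 3-regular graphs (Q1); for all graphs in `Nearly e`.
Moreover all graphs of the class of Q2 belong to `Nearly e`. -/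
theorem result (e : ℕ) (he : 1 ≤ e) :
    List.TFAE [ExactMatchingInP AllGraphs, ExactMatchingInP Cubic, ExactMatchingInP (Nearly e)] ∧
      ∀ (n : ℕ) (G : SimpleGraph (Fin n)), Unique n G → Nearly e n G := by
  obtain ⟨h1, h2⟩ := Pool.Agent.H72.EMA.t_ALL
  obtain ⟨h3, h4⟩ := h2 e he
  refine ⟨?_, h4⟩
  tfae_have 1 ↔ 2 := h1.symm
  tfae_have 1 ↔ 3 := h3.symm
  tfae_finish

end Pool.Agent.Results.MP_dc1a2c_lc.NearlyUniqueColourings
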